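import Pool.Agent.K1H2.UB.Stm

/-!
# A convex function
-/

set_option autoImplicit false

namespace Pool.Agent.K1H6.UB

open Pool.Agent.K1H2.UB Finset

theorem log_ineq {r : ℝ} (h0 : 0 ≤ r) (h1 : r < 1) : r + r ^ 2 / 2 ≤ -Real.log (1 - r) := by
  have h := Real.hasSum_pow_div_log_of_abs_lt_one (x := r) (by rw [abs_of_nonneg h0]; exact h1)
  have h2 := sum_le_hasSum (Finset.range 2) (fun n _ => by positivity) h
  refine le_trans (le_of_eq ?_) h2
  rw [Finset.sum_range_succ, Finset.sum_range_one]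
  norm_num

theorem gain {u0 y M : ℝ} (hu : 0 < u0) (hy : 0 < y) (hM : y ≤ M) :
    (max (y - u0) 0) ^ 2 / (2 * M) ≤ y * Real.log (y / u0) - (y - u0) := by
  have hM0 : 0 < M := by linarith
  rcases le_total y u0 with h | h
  · rw [max_eq_right (by linarith)]
    have h1 := Real.one_sub_inv_le_log_of_pos (div_pos hy hu)
    have h2 : y * (1 - (y / u0)⁻¹) ≤ y * Real.log (y / u0) := mul_le_mul_of_nonneg_left h1 hy.le
    have h3 : y * (1 - (y / u0)⁻¹) = y - u0 := by
      field_simp
    rw [h3] at h2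
    have h4 : (0 : ℝ) ^ 2 / (2 * M) = 0 := by norm_num
    rw [h4]
    linarith
  · rw [max_eq_left (by linarith)]
    have hr0 : 0 ≤ 1 - u0 / y := by
      rw [sub_nonneg, div_le_one hy]; exact h
    have hr1 : 1 - u0 / y < 1 := by
      have := div_pos hu hy
      linarith
    have h1 := log_ineq hr0 hr1
    have h2 : -Real.log (1 - (1 - u0 / y)) = Real.log (y / u0) := by
      rw [sub_sub_cancel, ← Real.log_inv, inv_div]
    rw [h2] at h1
    have h3 := mul_le_mul_of_nonneg_left h1 hy.le
    have h4 : y * (1 - u0 / y + (1 - u0 / y) ^ 2 / 2) = (y - u0) + (y - u0) ^ 2 / (2 * y) := by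
      field_simp
    rw [h4] at h3
    have h5 : (y - u0) ^ 2 / (2 * M) ≤ (y - u0) ^ 2 / (2 * y) := by
      apply div_le_div_of_nonneg_left (sq_nonneg _) (by linarith)
      linarith
    linarith

theorem Psi_nonneg {lam kap : ℝ} (hl : 0 ≤ lam) (u : ℝ) : 0 ≤ Psi lam kap u := by
  unfold Psi
  split_ifs
  · exact mul_nonneg hl (le_max_right _ _)
  · exact le_rfl

theorem Psi_le {lam kap M : ℝ} (hl : 0 ≤ lam) (hk : 0 ≤ kap) {u : ℝ} (hu : u ≤ 1) (hM : u ≤ M)
    (hM0 : 0 ≤ M) : Psi lam kap u ≤ lam * M := by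
  unfold Psi
  split_ifs with h
  · refine mul_le_mul_of_nonneg_left (max_le ?_ hM0) hl
    have h1 : Real.log u ≤ 0 := Real.log_nonpos h.le hu
    have h2 : 0 ≤ kap * (u * (1 - Real.log u)) :=
      mul_nonneg hk (mul_nonneg h.le (by linarith))
    linarith
  · exact mul_nonneg hl hM0

/-- the tangent at `u0` with the gain -/
theorem tangent {lam kap u0 y M : ℝ} (hl : 0 ≤ lam) (hk : 0 < kap) (hu : 0 < u0)
    (hp : 0 < 1 + kap * Real.log u0) (hyM : y ≤ M) :
    lam * ((u0 - kap * (u0 * (1 - Real.log u0))) + (1 + kap * Real.log u0) * (y - u0) +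
      kap * ((max (y - u0) 0) ^ 2 / (2 * M))) ≤ Psi lam kap y := by
  unfold Psi
  split_ifs with h
  · refine mul_le_mul_of_nonneg_left (le_trans ?_ (le_max_left _ _)) hl
    have h1 := mul_le_mul_of_nonneg_left (gain hu h hyM) hk.le
    rw [Real.log_div h.ne' hu.ne'] at h1
    nlinarith
  · push Not at h
    rw [max_eq_right (by linarith)]
    have h1 : (1 + kap * Real.log u0) * (y - u0) ≤ (1 + kap * Real.log u0) * (0 - u0) :=
      mul_le_mul_of_nonneg_left (by linarith) hp.le
    have h2 : 0 ≤ kap * u0 := by positivity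
    have h3 : (u0 - kap * (u0 * (1 - Real.log u0))) + (1 + kap * Real.log u0) * (y - u0) +
      kap * ((0 : ℝ) ^ 2 / (2 * M)) ≤ 0 := by
      have h4 : (0 : ℝ) ^ 2 / (2 * M) = 0 := by norm_num
      rw [h4]
      nlinarith
    exact mul_nonpos_of_nonneg_of_nonpos hl h3

/-- positive parts -/
theorem posparts (a : Fin 3 × Bool → ℝ) (h : 0 ≤ ∑ e, a e) (e : Fin 3 × Bool) :
    a e ^ 2 ≤ 6 * ∑ e, (max (a e) 0) ^ 2 := by
  have h1 : (∑ e, max (a e) 0) ^ 2 ≤ 6 * ∑ e, (max (a e) 0) ^ 2 := by
    have := sq_sum_le_card_mul_sum_sq (s := (Finset.univ : Finset (Fin 3 × Bool)))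
      (f := fun e => max (a e) 0)
    simpa using this
  have h2 : ∑ e, max (-a e) 0 ≤ ∑ e, max (a e) 0 := by
    have h3 : ∑ e, a e = ∑ e, max (a e) 0 - ∑ e, max (-a e) 0 := by
      rw [← Finset.sum_sub_distrib]
      refine Finset.sum_congr rfl fun e _ => ?_
      rcases le_total (a e) 0 with h | h
      · rw [max_eq_right h, max_eq_left (by linarith)]; ring
      · rw [max_eq_left h, max_eq_right (by linarith)]; ring
    linarith
  have h3 : |a e| ≤ ∑ e, max (a e) 0 := by
    rw [abs_le']
    constructor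
    · exact (le_max_left _ _).trans (Finset.single_le_sum (f := fun e => max (a e) 0)
        (fun e _ => le_max_right _ _) (Finset.mem_univ e))
    · exact (le_max_left _ _).trans ((Finset.single_le_sum (f := fun e => max (-a e) 0)
        (fun e _ => le_max_right _ _) (Finset.mem_univ e)).trans h2)
  rw [← sq_abs]
  exact (pow_le_pow_left₀ (abs_nonneg _) h3 2).trans h1

theorem t_PSI : S_PSI := by
  intro C1 C hC1 hC
  have hK1 : (1 : ℝ) ≤ 72 * C * C1 := by nlinarith
  refine ⟨72 * C * C1, hK1, ?_⟩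
  intro lam del u0 Y hl hlK hd hu1 hY hmean hgrad
  obtain ⟨kap, hkap⟩ : ∃ kap : ℝ, kap = lam * (72 * C * C1) * del := ⟨_, rfl⟩
  rw [← hkap]
  have hkpos : 0 < kap := by rw [hkap]; positivity
  have hC1l : C1 * lam ≤ 1 := by
    have h1 : lam * (72 * C * C1) ≤ 1 := by
      rw [le_div_iff₀ (by positivity)] at hlK
      exact hlK
    have h2 : C1 * lam ≤ lam * (72 * C * C1) := by
      have : C1 * lam * 1 ≤ C1 * lam * (72 * C) :=
        mul_le_mul_of_nonneg_left (by linarith) (by positivity)
      linarith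
    linarith
  by_cases h0 : Psi lam kap u0 = 0
  · rw [h0, zero_add, mul_div_assoc']
    apply div_le_div_of_nonneg_right _ (by norm_num)
    rw [Finset.mul_sum]
    refine Finset.sum_le_sum fun e _ => ?_
    have h1 := Psi_nonneg (kap := kap) hl.le (Y e)
    have h2 := Psi_le (M := 1) hl.le hkpos.le (hY e) (hY e) zero_le_one
    have h3 : C1 * Psi lam kap (Y e) ≤ 1 := by
      have : C1 * Psi lam kap (Y e) ≤ C1 * (lam * 1) :=
        mul_le_mul_of_nonneg_left h2 (by linarith)
      linarith
    calc C1 * Psi lam kap (Y e) ^ 2 = (C1 * Psi lam kap (Y e)) * Psi lam kap (Y e) := by ring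
      _ ≤ 1 * Psi lam kap (Y e) := mul_le_mul_of_nonneg_right h3 h1
      _ = _ := one_mul _
  · -- the main case
    have hu : 0 < u0 := by
      by_contra hc
      exact h0 (by unfold Psi; rw [if_neg hc])
    have hval : Psi lam kap u0 = lam * (u0 - kap * (u0 * (1 - Real.log u0))) := by
      unfold Psi at h0 ⊢
      rw [if_pos hu] at h0 ⊢
      congr 1
      apply max_eq_left
      by_contra hc
      exact h0 (by rw [max_eq_right (by linarith), mul_zero])
    have hpos : 0 < u0 - kap * (u0 * (1 - Real.log u0)) := by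
      have h1 : 0 < Psi lam kap u0 := lt_of_le_of_ne (Psi_nonneg hl.le _) (Ne.symm h0)
      rw [hval] at h1
      exact (mul_pos_iff_of_pos_left hl).1 h1
    have hp : 0 < 1 + kap * Real.log u0 := by
      have h1 : u0 - kap * (u0 * (1 - Real.log u0)) = u0 * (1 + kap * Real.log u0 - kap) := by ring
      rw [h1] at hpos
      have h2 := (mul_pos_iff_of_pos_left hu).1 hpos
      linarith
    obtain ⟨e', -, he'⟩ := Finset.exists_max_image (Finset.univ : Finset (Fin 3 × Bool)) Y
      ⟨(0, true), Finset.mem_univ _⟩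
    have hmn := hmean hu
    have hsum0 : 0 ≤ ∑ e, (Y e - u0) := by
      rw [Finset.sum_sub_distrib]
      simp only [Finset.sum_const, Finset.card_univ, Fintype.card_prod, Fintype.card_fin,
        Fintype.card_bool, nsmul_eq_mul]
      push_cast
      linarith
    have hMu : u0 ≤ Y e' := by
      have h1 : ∑ e, Y e ≤ ∑ _e : Fin 3 × Bool, Y e' :=
        Finset.sum_le_sum fun e he => he' e he
      simp only [Finset.sum_const, Finset.card_univ, Fintype.card_prod, Fintype.card_fin,
        Fintype.card_bool, nsmul_eq_mul] at h1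
      push_cast at h1
      linarith
    have hM : 0 < Y e' := by linarith
    obtain ⟨e, he⟩ := hgrad hu e'
    have hpp := posparts (fun e => Y e - u0) hsum0 e
    -- the lower bound
    have hlow : ∑ e, lam * ((u0 - kap * (u0 * (1 - Real.log u0))) +
        (1 + kap * Real.log u0) * (Y e - u0) +
        kap * ((max (Y e - u0) 0) ^ 2 / (2 * Y e'))) ≤ ∑ e, Psi lam kap (Y e) :=
      Finset.sum_le_sum fun e he => tangent hl.le hkpos hu hp (he' e he)
    have hsplit : ∑ e, lam * ((u0 - kap * (u0 * (1 - Real.log u0))) +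
        (1 + kap * Real.log u0) * (Y e - u0) +
        kap * ((max (Y e - u0) 0) ^ 2 / (2 * Y e'))) =
        lam * (6 * (u0 - kap * (u0 * (1 - Real.log u0))) +
          (1 + kap * Real.log u0) * ∑ e, (Y e - u0) +
          kap * ((∑ e, (max (Y e - u0) 0) ^ 2) / (2 * Y e'))) := by
      rw [← Finset.mul_sum, Finset.sum_add_distrib, Finset.sum_add_distrib, ← Finset.mul_sum,
        ← Finset.mul_sum, ← Finset.sum_div]
      simp only [Finset.sum_const, Finset.card_univ, Fintype.card_prod, Fintype.card_fin,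
        Fintype.card_bool, nsmul_eq_mul]
      norm_num
    rw [hsplit] at hlow
    -- the gain
    have hgain : C1 * lam * (6 * Y e' ^ 2) ≤
        kap * ((∑ e, (max (Y e - u0) 0) ^ 2) / (2 * Y e')) := by
      rw [mul_div_assoc', le_div_iff₀ (by positivity)]
      have h1 : Y e' ^ 3 ≤ C * del * (6 * ∑ e, (max (Y e - u0) 0) ^ 2) :=
        he.trans (mul_le_mul_of_nonneg_left hpp (by positivity))
      have h2 := mul_le_mul_of_nonneg_left h1 (by positivity : 0 ≤ 12 * C1 * lam)
      rw [hkap]
      nlinarith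
    have hmid : 0 ≤ (1 + kap * Real.log u0) * ∑ e, (Y e - u0) := mul_nonneg hp.le hsum0
    have hsq : ∑ e, Psi lam kap (Y e) ^ 2 ≤ 6 * (lam * Y e') ^ 2 := by
      have h1 : ∑ e, Psi lam kap (Y e) ^ 2 ≤ ∑ _e : Fin 3 × Bool, (lam * Y e') ^ 2 :=
        Finset.sum_le_sum fun e he => pow_le_pow_left₀ (Psi_nonneg hl.le _)
          (Psi_le hl.le hkpos.le (hY e) (he' e he) hM.le) 2
      simp only [Finset.sum_const, Finset.card_univ, Fintype.card_prod, Fintype.card_fin,
        Fintype.card_bool, nsmul_eq_mul] at h1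
      push_cast at h1
      linarith
    have hg2 := mul_le_mul_of_nonneg_left hgain hl.le
    have hm2 := mul_nonneg hl.le hmid
    have hs2 := mul_le_mul_of_nonneg_left hsq (by linarith : 0 ≤ C1)
    rw [hval]
    nlinarith

end Pool.Agent.K1H6.UB
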