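import Pool.Agent.K1H2.UB.Stm
import Pool.Agent.K1H99.BI.Off

/-!
# The generating function of the offspring law
-/

set_option autoImplicit false

open scoped ENNReal
open Finset

namespace Pool.Agent.K1H6.UB

open Pool.Agent.K1H2.UB Pool.Agent.K1H53.BI

theorem bern {t : ℝ} (h0 : 0 ≤ t) (h1 : t ≤ 1) (k : ℕ) :
    (1 - t) ^ k ≤ 1 - k * t + (k : ℝ) * (k - 1) / 2 * t ^ 2 := by
  induction k with
  | zero => simp
  | succ k ih =>
    have h2 : (1 - t) ^ (k + 1) ≤ (1 - k * t + (k : ℝ) * (k - 1) / 2 * t ^ 2) * (1 - t) := by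
      rw [pow_succ]
      exact mul_le_mul_of_nonneg_right ih (by linarith)
    refine h2.trans ?_
    push_cast
    have h3 : 0 ≤ (k : ℝ) * (k - 1) / 2 * t ^ 3 := by
      have : 0 ≤ (k : ℝ) * (k - 1) := by
        rcases Nat.eq_zero_or_pos k with h | h
        · rw [h]; norm_num
        · have : (1 : ℝ) ≤ k := by exact_mod_cast h
          exact mul_nonneg (by linarith) (by linarith)
      positivity
    nlinarith

theorem exp_neg_le {b : ℝ} (hb : 0 ≤ b) : Real.exp (-b) ≤ 1 - b + b ^ 2 / 2 := by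
  rw [Real.exp_neg, inv_le_iff_one_le_mul₀ (Real.exp_pos b)]
  have h1 := Real.quadratic_le_exp_of_nonneg hb
  have h2 : 0 ≤ 1 - b + b ^ 2 / 2 := by nlinarith [sq_nonneg (b - 1)]
  have h3 : (1 - b + b ^ 2 / 2) * (1 + b + b ^ 2 / 2) ≤ (1 - b + b ^ 2 / 2) * Real.exp b :=
    mul_le_mul_of_nonneg_left h1 h2
  have h4 : (1 - b + b ^ 2 / 2) * (1 + b + b ^ 2 / 2) = 1 + b ^ 4 / 4 := by ring
  have h5 : 0 ≤ b ^ 4 / 4 := by positivity
  linarith

theorem ex_le (ν : PMF ℕ) (h : CondH ν) {m : ℝ} (h0 : 0 ≤ m) (h1 : m ≤ 1) :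
    Ex ν (fun k => (ENNReal.ofReal m) ^ k) ≤ ENNReal.ofReal (1 - (1 - m) +
      (∑' k : ℕ, (ν k).toReal * ((k : ℝ) - 1) ^ 2) / 2 * (1 - m) ^ 2) := by
  have hs0 := Pool.Agent.K1H99.BI.hasSum_one ν
  have hs2 := (Pool.Agent.K1H99.BI.summ h 2 (by norm_num)).hasSum
  have hs1 : HasSum (fun k : ℕ => (ν k).toReal * ((k : ℝ) - 1)) 0 := by
    have := h.mean.sub hs0
    rw [sub_self] at this
    refine this.congr_fun ?_
    intro k
    ring
  obtain ⟨s2, hs⟩ : ∃ s2 : ℝ, s2 = ∑' k : ℕ, (ν k).toReal * ((k : ℝ) - 1) ^ 2 := ⟨_, rfl⟩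
  rw [← hs] at hs2 ⊢
  have hk : HasSum (fun k : ℕ => (ν k).toReal * (1 - k * (1 - m) +
      (k : ℝ) * (k - 1) / 2 * (1 - m) ^ 2)) (1 - (1 - m) + s2 / 2 * (1 - m) ^ 2) := by
    have e := (hs0.sub (h.mean.mul_left (1 - m))).add ((hs2.add hs1).mul_left ((1 - m) ^ 2 / 2))
    have e2 : 1 - (1 - m) * 1 + (1 - m) ^ 2 / 2 * (s2 + 0) =
      1 - (1 - m) + s2 / 2 * (1 - m) ^ 2 := by ring
    rw [e2] at e
    refine e.congr_fun ?_
    intro k
    ring
  have hsm : Summable fun k : ℕ => (ν k).toReal * m ^ k := by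
    refine Summable.of_nonneg_of_le (fun k => mul_nonneg ENNReal.toReal_nonneg (pow_nonneg h0 k))
      (fun k => ?_) hs0.summable
    exact mul_le_of_le_one_right ENNReal.toReal_nonneg (pow_le_one₀ h0 h1)
  have hE : Ex ν (fun k => (ENNReal.ofReal m) ^ k) =
      ENNReal.ofReal (∑' k : ℕ, (ν k).toReal * m ^ k) := by
    rw [ENNReal.ofReal_tsum_of_nonneg (fun k => mul_nonneg ENNReal.toReal_nonneg (pow_nonneg h0 k))
      hsm]
    unfold Ex
    refine tsum_congr fun k => ?_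
    rw [ENNReal.ofReal_mul ENNReal.toReal_nonneg, ENNReal.ofReal_toReal (ν.apply_ne_top k),
      ENNReal.ofReal_pow h0]
  rw [hE]
  apply ENNReal.ofReal_le_ofReal
  rw [← hk.tsum_eq]
  refine hsm.tsum_le_tsum (fun k => ?_) hk.summable
  have := bern (t := 1 - m) (by linarith) (by linarith) k
  rw [sub_sub_cancel] at this
  exact mul_le_mul_of_nonneg_left this ENNReal.toReal_nonneg

theorem t_GF : S_GF := by
  intro ν h
  obtain ⟨s2, hs⟩ : ∃ s2 : ℝ, s2 = ∑' k : ℕ, (ν k).toReal * ((k : ℝ) - 1) ^ 2 := ⟨_, rfl⟩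
  have hs0 : 0 < s2 := by rw [hs]; exact h.var
  refine ⟨1 + s2 / 2, by linarith, fun b hb => ?_⟩
  obtain ⟨m, hm⟩ : ∃ m : ℝ, m = (∑ e, Real.exp (-b e)) / 6 := ⟨_, rfl⟩
  have card6 : ∀ c : ℝ, ∑ _e : Fin 3 × Bool, c = 6 * c := by
    intro c
    simp only [Finset.sum_const, Finset.card_univ, Fintype.card_prod, Fintype.card_fin,
      Fintype.card_bool, nsmul_eq_mul]
    push_cast
    ring
  have hm0 : 0 ≤ m := by
    rw [hm]
    exact div_nonneg (Finset.sum_nonneg fun e _ => (Real.exp_pos _).le) (by norm_num)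
  have hup : m ≤ 1 - (∑ e, b e) / 6 + (∑ e, b e ^ 2) / 12 := by
    have h1 : ∑ e, Real.exp (-b e) ≤ ∑ e, (1 - b e + b e ^ 2 / 2) :=
      Finset.sum_le_sum fun e _ => exp_neg_le (hb e)
    rw [Finset.sum_add_distrib, Finset.sum_sub_distrib, card6, ← Finset.sum_div] at h1
    rw [hm]
    linarith
  have hlo : 1 - (∑ e, b e) / 6 ≤ m := by
    have h1 : ∑ e, (1 - b e) ≤ ∑ e, Real.exp (-b e) :=
      Finset.sum_le_sum fun e _ => by
        have := Real.add_one_le_exp (-b e)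
        linarith
    rw [Finset.sum_sub_distrib, card6] at h1
    rw [hm]
    linarith
  have hm1 : m ≤ 1 := by
    have h1 : ∑ e, Real.exp (-b e) ≤ ∑ _e : Fin 3 × Bool, (1 : ℝ) :=
      Finset.sum_le_sum fun e _ => Real.exp_le_one_iff.2 (by linarith [hb e])
    rw [card6] at h1
    rw [hm]
    linarith
  rw [← hm]
  refine (ex_le ν h hm0 hm1).trans (ENNReal.ofReal_le_ofReal ?_)
  rw [← hs]
  have hcs : (∑ e, b e) ^ 2 ≤ 6 * ∑ e, b e ^ 2 := by
    have := sq_sum_le_card_mul_sum_sq (s := (Finset.univ : Finset (Fin 3 × Bool))) (f := b)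
    simpa using this
  have hsb : 0 ≤ ∑ e, b e := Finset.sum_nonneg fun e _ => hb e
  have ht : (1 - m) ^ 2 ≤ (∑ e, b e ^ 2) / 6 := by
    have h1 : (1 - m) ^ 2 ≤ ((∑ e, b e) / 6) ^ 2 := pow_le_pow_left₀ (by linarith) (by linarith) 2
    have h2 : ((∑ e, b e) / 6) ^ 2 = (∑ e, b e) ^ 2 / 36 := by ring
    rw [h2] at h1
    linarith
  have h3 := mul_le_mul_of_nonneg_left ht (by linarith : 0 ≤ s2 / 2)
  have hq : 0 ≤ ∑ e, b e ^ 2 := Finset.sum_nonneg fun e _ => sq_nonneg _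
  have e1 : (1 + s2 / 2) * (∑ e, b e ^ 2) / 6 =
    (∑ e, b e ^ 2) / 6 + s2 / 2 * ((∑ e, b e ^ 2) / 6) := by ring
  rw [e1]
  linarith

end Pool.Agent.K1H6.UB
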